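import Pool.Agent.Helper45.SD.Goals

set_option autoImplicit false

open Finset

namespace Pool.Agent.Helper50.SD

open Pool.Agent.Helper45.SD

lemma bp_zero (n s N : ℕ) (z : ℤ) :
    (Bp n s N 0 (z : ZMod n) : ℤ) = if (n : ℤ) ∣ z then 1 else 0 := by
  unfold Bp
  rw [powersetCard_zero, filter_singleton]
  by_cases hz : (n : ℤ) ∣ z
  · have h0 : ((z : ℤ) : ZMod n) = 0 := (ZMod.intCast_zmod_eq_zero_iff_dvd z n).mpr hz
    simp [hz, h0]
  · have h0 : ¬ ((z : ℤ) : ZMod n) = 0 := fun h =>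
      hz ((ZMod.intCast_zmod_eq_zero_iff_dvd z n).mp h)
    have h1 : ¬ (0 : ZMod n) = ((z : ℤ) : ZMod n) := fun h => h0 h.symm
    simp [hz, h1]

lemma bp_one (n s N : ℕ) (hn : n = s * N) (hs : 0 < s) (hN : N.Prime) (hc : Nat.Coprime s N)
    (z : ℤ) :
    (Bp n s N 1 (z : ZMod n) : ℤ) = if (s : ℤ) ∣ z ∧ ¬ (N : ℤ) ∣ z then 1 else 0 := by
  have hN0 : (0 : ℤ) < N := by exact_mod_cast hN.pos
  have hs0 : (s : ℤ) ≠ 0 := by exact_mod_cast hs.ne'
  have hNN : Prime (N : ℤ) := Nat.prime_iff_prime_int.mp hN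
  have hNs : ¬ (N : ℤ) ∣ (s : ℤ) := by
    intro h
    have h' : N ∣ s := by exact_mod_cast h
    have := hc.symm
    rw [Nat.Coprime, Nat.gcd_eq_left h'] at this
    exact hN.one_lt.ne' this
  -- the condition on i
  have key : ∀ i : ℕ, (((s * i : ℕ) : ZMod n) = ((z : ℤ) : ZMod n)) ↔
      ((s : ℤ) * N) ∣ (s : ℤ) * i - z := by
    intro i
    rw [← sub_eq_zero]
    have : (((s * i : ℕ) : ZMod n) - ((z : ℤ) : ZMod n)) = (((s : ℤ) * i - z : ℤ) : ZMod n) := by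
      push_cast; ring
    rw [this, ZMod.intCast_zmod_eq_zero_iff_dvd, hn]
    push_cast
    rfl
  unfold Bp
  rw [powersetCard_one, filter_map, card_map]
  split_ifs with h
  · obtain ⟨⟨c, rfl⟩, h2⟩ := h
    have hc0 : 0 ≤ c % N := Int.emod_nonneg _ hN0.ne'
    have hcN : c % N < N := Int.emod_lt_of_pos _ hN0
    have hcn : c % N ≠ 0 := by
      intro h0
      exact h2 (Dvd.dvd.mul_left (Int.dvd_of_emod_eq_zero h0) _)
    have : (Ico 1 N).filter ((fun L : Finset ℕ =>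
        ((s * ∑ i ∈ L, i : ℕ) : ZMod n) = (((s : ℤ) * c : ℤ) : ZMod n)) ∘
        (⟨fun x => {x}, Finset.singleton_injective⟩ : ℕ ↪ Finset ℕ)) = {(c % N).toNat} := by
      ext i
      simp only [mem_filter, mem_Ico, Function.comp, Function.Embedding.coeFn_mk, sum_singleton,
        mem_singleton]
      rw [key i, ← mul_sub, mul_dvd_mul_iff_left hs0]
      constructor
      · rintro ⟨⟨h1, h3⟩, h4⟩
        have h5 : ((i : ℤ)) % N = c % N := Int.emod_eq_emod_iff_emod_sub_eq_zero.mpr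
          (Int.emod_eq_zero_of_dvd h4)
        have h6 : ((i : ℤ)) % N = i := Int.emod_eq_of_lt (by positivity) (by exact_mod_cast h3)
        omega
      · intro h1
        have h3 : (i : ℤ) = c % N := by omega
        refine ⟨⟨by omega, by omega⟩, ?_⟩
        rw [h3]
        have := Int.emod_add_mul_ediv c N
        exact ⟨-(c / N), by linarith⟩
    rw [this]
    simp
  · have : (Ico 1 N).filter ((fun L : Finset ℕ =>
        ((s * ∑ i ∈ L, i : ℕ) : ZMod n) = ((z : ℤ) : ZMod n)) ∘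
        (⟨fun x => {x}, Finset.singleton_injective⟩ : ℕ ↪ Finset ℕ)) = ∅ := by
      rw [filter_eq_empty_iff]
      intro i hi
      simp only [mem_Ico] at hi
      simp only [Function.comp, Function.Embedding.coeFn_mk, sum_singleton]
      rw [key i]
      intro h4
      apply h
      have hsz : (s : ℤ) ∣ z := by
        have h5 : (s : ℤ) ∣ (s : ℤ) * i - z := (Dvd.intro _ rfl).trans h4
        have h6 : (s : ℤ) ∣ (s : ℤ) * i := Dvd.intro _ rfl
        have := dvd_sub h6 h5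
        simpa using this
      refine ⟨hsz, fun hNz => ?_⟩
      have h5 : (N : ℤ) ∣ (s : ℤ) * i - z := (Dvd.intro_left _ rfl).trans h4
      have h6 : (N : ℤ) ∣ (s : ℤ) * i := by
        have := dvd_add h5 hNz
        simpa using this
      rcases hNN.dvd_or_dvd h6 with h7 | h7
      · exact hNs h7
      · have h8 : N ∣ i := by exact_mod_cast h7
        exact absurd (Nat.le_of_dvd (by omega) h8) (by omega)
    rw [this]
    simp

/-- counting residues in an initial interval -/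
lemma count_res (Q r0 H w : ℕ) (hr : r0 < Q) (hw1 : 1 ≤ w) (hw2 : w ≤ Q) :
    (((Icc 1 (r0 + Q * H)).filter (fun i : ℕ => (Q : ℤ) ∣ (i : ℤ) - w)).card : ℤ) =
      H + if w ≤ r0 then 1 else 0 := by
  have hQ : 0 < Q := by omega
  induction H with
  | zero =>
    split_ifs with h
    · have : (Icc 1 (r0 + Q * 0)).filter (fun i : ℕ => (Q : ℤ) ∣ (i : ℤ) - w) = {w} := by
        ext i
        simp only [mem_filter, mem_Icc, mem_singleton, mul_zero, add_zero]
        constructor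
        · rintro ⟨⟨h1, h2⟩, h3⟩
          have := Int.eq_zero_of_abs_lt_dvd h3 (by rw [abs_lt]; constructor <;> omega)
          omega
        · rintro rfl
          exact ⟨⟨hw1, h⟩, by simp⟩
      rw [this]; simp
    · have : (Icc 1 (r0 + Q * 0)).filter (fun i : ℕ => (Q : ℤ) ∣ (i : ℤ) - w) = ∅ := by
        rw [filter_eq_empty_iff]
        intro i hi h3
        simp only [mem_Icc, mul_zero, add_zero] at hi
        have := Int.eq_zero_of_abs_lt_dvd h3 (by rw [abs_lt]; constructor <;> omega)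
        omega
      rw [this]; simp
  | succ H ih =>
    have hsplit : (Icc 1 (r0 + Q * (H + 1))).filter (fun i : ℕ => (Q : ℤ) ∣ (i : ℤ) - w) =
        (Icc 1 (r0 + Q * H)).filter (fun i : ℕ => (Q : ℤ) ∣ (i : ℤ) - w) ∪
        {if w ≤ r0 then w + Q * (H + 1) else w + Q * H} := by
      ext i
      simp only [mem_filter, mem_Icc, mem_union, mem_singleton]
      constructor
      · rintro ⟨⟨h1, h2⟩, c, h3⟩
        by_cases h4 : i ≤ r0 + Q * H
        · exact Or.inl ⟨⟨h1, h4⟩, c, h3⟩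
        · right
          have h5 : (i : ℤ) = w + Q * c := by linarith
          have h6 : (r0 : ℤ) + Q * H < w + Q * c := by rw [← h5]; exact_mod_cast not_le.mp h4
          have h7 : (w : ℤ) + Q * c ≤ r0 + Q * (H + 1) := by rw [← h5]; exact_mod_cast h2
          split_ifs with h
          · have h8 : (Q : ℤ) * H < Q * c := by
              have : (w : ℤ) ≤ r0 := by exact_mod_cast h
              linarith
            have h9 : (Q : ℤ) * c < Q * (H + 2) := by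
              have : (1 : ℤ) ≤ w := by exact_mod_cast hw1
              have : (r0 : ℤ) < Q := by exact_mod_cast hr
              nlinarith
            have hQ' : (0 : ℤ) < Q := by exact_mod_cast hQ
            have h10 := lt_of_mul_lt_mul_left h8 hQ'.le
            have h11 := lt_of_mul_lt_mul_left h9 hQ'.le
            have h12 : c = H + 1 := by omega
            rw [h12] at h5
            exact_mod_cast h5
          · have h' : (r0 : ℤ) < w := by exact_mod_cast not_le.mp h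
            have h8 : (Q : ℤ) * (H - 1) < Q * c := by
              have : (w : ℤ) ≤ Q := by exact_mod_cast hw2
              have : (0 : ℤ) ≤ r0 := by positivity
              nlinarith
            have h9 : (Q : ℤ) * c < Q * (H + 1) := by
              linarith
            have hQ' : (0 : ℤ) < Q := by exact_mod_cast hQ
            have h10 := lt_of_mul_lt_mul_left h8 hQ'.le
            have h11 := lt_of_mul_lt_mul_left h9 hQ'.le
            have h12 : c = H := by omega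
            rw [h12] at h5
            exact_mod_cast h5
      · rintro (⟨⟨h1, h2⟩, h3⟩ | h)
        · refine ⟨⟨h1, le_trans h2 ?_⟩, h3⟩
          rw [mul_add]; omega
        · split_ifs at h with h'
          · subst h
            refine ⟨⟨by omega, by omega⟩, ((H : ℤ) + 1), by push_cast; ring⟩
          · subst h
            refine ⟨⟨by omega, ?_⟩, (H : ℤ), by push_cast; ring⟩
            rw [mul_add]; omega
    rw [hsplit, card_union_of_disjoint, Nat.cast_add, ih, card_singleton]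
    · push_cast; ring
    · rw [disjoint_singleton_right]
      simp only [mem_filter, mem_Icc, not_and]
      intro h1
      exfalso
      split_ifs at h1 with h'
      · rw [mul_add] at h1; omega
      · omega


lemma cop_dvd {a b c : ℤ} (h : IsCoprime a b) : a ∣ b * c ↔ a ∣ c :=
  ⟨h.dvd_of_dvd_mul_left, fun h' => Dvd.dvd.mul_left h' _⟩

open Classical in
/-- the value of `S(θ)` -/
lemma S_val (q v b N : ℕ) (hq : q.Prime) (hbv : b ≤ v) (hN : N.Prime) (hNq : N ≠ q)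
    (n : ℕ) (hn : n = q ^ v * N) (k r r0 H X : ℕ) (hr0 : r0 < q ^ b)
    (hr : r = r0 + q ^ b * H) (hk : k = q ^ v + r) (hk' : k = r * N + 1) (hrs : r < q ^ v)
    (hX : q ^ (v - b) ∣ X) (hX' : ¬ q ^ (v - b + 1) ∣ X) (hNX : N ∣ X)
    (e : ℤ) (he1 : ((q ^ v : ℕ) : ℤ) ∣ e - 1) (heN : (N : ℤ) ∣ e)
    (θ : ℕ) (hθ1 : 1 ≤ θ) (hθ2 : θ ≤ q ^ b) (hθ : Nat.Coprime θ q) (t : ℤ)
    (ht : ((q ^ v : ℕ) : ℤ) ∣ θ * t - 1) :
    ∑ j ∈ Icc 1 k, (-1 : ℤ) ^ ((k - j) / q ^ v) * (Bp n (q ^ v) N ((k - j) / q ^ v)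
      (((X - j * (e * X * t + (1 - e)) : ℤ)) : ZMod n) : ℤ)
    = (if ∃ w : ℕ, 1 ≤ w ∧ w ≤ r0 ∧ ((q ^ b : ℕ) : ℤ) ∣ N * w - θ then 1 else 0)
      - (if θ ≤ r0 then 1 else 0) := by
  have hs : 0 < q ^ v := pow_pos hq.pos _
  have hQ : 0 < q ^ b := pow_pos hq.pos _
  have hcqN : Nat.Coprime q N := (Nat.coprime_primes hq hN).mpr (fun h => hNq h.symm)
  have hcs : Nat.Coprime (q ^ v) N := Nat.Coprime.pow_left _ hcqN
  have hcQ : Nat.Coprime (q ^ b) N := Nat.Coprime.pow_left _ hcqN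
  have hNZ : Prime (N : ℤ) := Nat.prime_iff_prime_int.mp hN
  have hqZ : Prime (q : ℤ) := Nat.prime_iff_prime_int.mp hq
  have hQs : ((q ^ b : ℕ) : ℤ) ∣ ((q ^ v : ℕ) : ℤ) := by
    exact_mod_cast pow_dvd_pow q hbv
  -- divisibility of `z_j` by `s`
  have hz1 : ∀ j : ℕ, ((q ^ v : ℕ) : ℤ) ∣ (X - j * (e * X * t + (1 - e)) : ℤ) ↔
      ((q ^ b : ℕ) : ℤ) ∣ (j : ℤ) - θ := by
    intro j
    have h1 : ((q ^ v : ℕ) : ℤ) ∣ (X - j * (e * X * t + (1 - e)) : ℤ) ↔
        ((q ^ v : ℕ) : ℤ) ∣ (X : ℤ) * (1 - j * t) := by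
      have h2 : (X - j * (e * X * t + (1 - e)) : ℤ) =
          (X : ℤ) * (1 - j * t) + (e - 1) * (j - j * X * t) := by ring
      rw [h2]
      exact dvd_add_left (Dvd.dvd.mul_right he1 _)
    rw [h1]
    obtain ⟨X1, hX1⟩ := hX
    have hqX1 : ¬ q ∣ X1 := by
      rintro ⟨c, rfl⟩
      exact hX' ⟨c, by rw [hX1]; ring⟩
    have h3 : ((q ^ v : ℕ) : ℤ) = ((q ^ (v - b) : ℕ) : ℤ) * ((q ^ b : ℕ) : ℤ) := by
      rw [← Nat.cast_mul, ← pow_add, Nat.sub_add_cancel hbv]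
    have h4 : (X : ℤ) * (1 - j * t) = ((q ^ (v - b) : ℕ) : ℤ) * ((X1 : ℤ) * (1 - j * t)) := by
      rw [hX1]; push_cast; ring
    have h5 : (((q ^ (v - b) : ℕ) : ℤ)) ≠ 0 := by
      exact_mod_cast (pow_pos hq.pos (v - b)).ne'
    rw [h3, h4, mul_dvd_mul_iff_left h5]
    have hcX : IsCoprime (((q ^ b : ℕ) : ℤ)) (X1 : ℤ) := by
      rw [Nat.isCoprime_iff_coprime]
      exact Nat.Coprime.pow_left _ ((Nat.Prime.coprime_iff_not_dvd hq).mpr hqX1)
    have hct : IsCoprime (((q ^ b : ℕ) : ℤ)) (θ : ℤ) := by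
      rw [Nat.isCoprime_iff_coprime]
      exact Nat.Coprime.pow_left _ hθ.symm
    rw [cop_dvd hcX]
    constructor
    · intro h
      have h6 : ((q ^ b : ℕ) : ℤ) ∣ (θ : ℤ) * (1 - j * t) := Dvd.dvd.mul_left h _
      have h7 : ((q ^ b : ℕ) : ℤ) ∣ (j : ℤ) * (θ * t - 1) := Dvd.dvd.mul_left (hQs.trans ht) _
      have h8 := dvd_add h6 h7
      have h9 : (θ : ℤ) * (1 - j * t) + (j : ℤ) * (θ * t - 1) = -((j : ℤ) - θ) := by ring
      rw [h9] at h8
      exact (dvd_neg).mp h8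
    · intro h
      have h7 : ((q ^ b : ℕ) : ℤ) ∣ (j : ℤ) * (θ * t - 1) := Dvd.dvd.mul_left (hQs.trans ht) _
      have h8 := dvd_add h h7
      have h9 : ((j : ℤ) - θ) + (j : ℤ) * (θ * t - 1) = (θ : ℤ) * -(1 - j * t) := by ring
      rw [h9, cop_dvd hct] at h8
      exact (dvd_neg).mp h8
  have hz2 : ∀ j : ℕ, (N : ℤ) ∣ (X - j * (e * X * t + (1 - e)) : ℤ) ↔ N ∣ j := by
    intro j
    have h2 : (X - j * (e * X * t + (1 - e)) : ℤ) = (X : ℤ) + e * (j - j * X * t) + -(j : ℤ) := by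
      ring
    rw [h2]
    have h3 : (N : ℤ) ∣ (X : ℤ) + e * (j - j * X * t) :=
      dvd_add (by exact_mod_cast hNX) (Dvd.dvd.mul_right heN _)
    rw [dvd_add_right h3, dvd_neg]
    exact Int.natCast_dvd_natCast
  have hterm : ∀ j ∈ Icc 1 k, (-1 : ℤ) ^ ((k - j) / q ^ v) * (Bp n (q ^ v) N ((k - j) / q ^ v)
      (((X - j * (e * X * t + (1 - e)) : ℤ)) : ZMod n) : ℤ) =
      (if ((q ^ b : ℕ) : ℤ) ∣ (j : ℤ) - θ ∧ N ∣ j then 1 else 0) -
      (if j ≤ r ∧ ((q ^ b : ℕ) : ℤ) ∣ (j : ℤ) - θ then 1 else 0) := by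
    intro j hj
    rw [mem_Icc] at hj
    by_cases hjr : j ≤ r
    · have hdiv : (k - j) / q ^ v = 1 := by
        rw [Nat.div_eq_of_lt_le] <;> omega
      rw [hdiv, bp_one n (q ^ v) N hn hs hN hcs]
      simp only [hz1 j, hz2 j]
      simp only [hjr, true_and]
      by_cases h1 : ((q ^ b : ℕ) : ℤ) ∣ (j : ℤ) - θ
      · rw [if_pos h1]
        by_cases h2 : N ∣ j
        · rw [if_neg (fun h => h.2 h2), if_pos ⟨h1, h2⟩]; norm_num
        · rw [if_pos ⟨h1, h2⟩, if_neg (fun h => h2 h.2)]; norm_num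
      · rw [if_neg (fun h => h1 h.1), if_neg (fun h => h1 h.1), if_neg h1]; norm_num
    · have hdiv : (k - j) / q ^ v = 0 := by
        apply Nat.div_eq_of_lt; omega
      rw [hdiv, bp_zero n (q ^ v) N]
      have h3 : (n : ℤ) ∣ (X - j * (e * X * t + (1 - e)) : ℤ) ↔
          (((q ^ b : ℕ) : ℤ) ∣ (j : ℤ) - θ ∧ N ∣ j) := by
        rw [← hz1 j, ← hz2 j, hn, Nat.cast_mul]
        have hco : IsCoprime (((q ^ v : ℕ) : ℤ)) (N : ℤ) := Nat.isCoprime_iff_coprime.mpr hcs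
        constructor
        · intro h
          exact ⟨(Dvd.intro _ rfl).trans h, (Dvd.intro_left _ rfl).trans h⟩
        · rintro ⟨h4, h5⟩
          exact hco.mul_dvd h4 h5
      simp only [h3]
      simp [hjr]
  rw [sum_congr rfl hterm, sum_sub_distrib]
  -- choose `w`
  have hcQN' : IsCoprime (((q ^ b : ℕ) : ℤ)) (N : ℤ) := Nat.isCoprime_iff_coprime.mpr hcQ
  obtain ⟨w, hw1, hw2, hw3⟩ : ∃ w : ℕ, 1 ≤ w ∧ w ≤ q ^ b ∧ ((q ^ b : ℕ) : ℤ) ∣ (N : ℤ) * w - θ := by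
    obtain ⟨a, c, hac⟩ := hcQN'
    -- a Q + c N = 1
    have hQZ : (0 : ℤ) < ((q ^ b : ℕ) : ℤ) := by exact_mod_cast hQ
    set w0 : ℤ := (c * θ - 1) % ((q ^ b : ℕ) : ℤ) with hw0
    have h1 : 0 ≤ w0 := Int.emod_nonneg _ hQZ.ne'
    have h2 : w0 < ((q ^ b : ℕ) : ℤ) := Int.emod_lt_of_pos _ hQZ
    refine ⟨w0.toNat + 1, by omega, by omega, ?_⟩
    have h3 : ((w0.toNat + 1 : ℕ) : ℤ) = w0 + 1 := by push_cast; omega
    rw [h3]
    have h4 := Int.emod_add_mul_ediv (c * θ - 1) ((q ^ b : ℕ) : ℤ)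
    rw [← hw0] at h4
    refine ⟨-(N : ℤ) * ((c * θ - 1) / ((q ^ b : ℕ) : ℤ)) - a * θ, ?_⟩
    have h5 : w0 = c * θ - 1 - ((q ^ b : ℕ) : ℤ) * ((c * θ - 1) / ((q ^ b : ℕ) : ℤ)) := by
      linarith
    rw [h5]
    linear_combination (-(θ : ℤ)) * hac + 2 * (0 : ℤ) * hac + (θ : ℤ) * hac + (θ : ℤ) * hac
  have hiff : (∃ w : ℕ, 1 ≤ w ∧ w ≤ r0 ∧ ((q ^ b : ℕ) : ℤ) ∣ N * w - θ) ↔ w ≤ r0 := by
    constructor
    · rintro ⟨w', h1, h2, h3⟩
      have h4 := dvd_sub h3 hw3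
      have h5 : (N * w' - θ : ℤ) - (N * w - θ) = N * (w' - w) := by ring
      rw [h5, cop_dvd hcQN'] at h4
      have := Int.eq_zero_of_abs_lt_dvd h4 (by rw [abs_lt]; constructor <;> omega)
      omega
    · intro h
      exact ⟨w, hw1, h, hw3⟩
  rw [if_congr hiff rfl rfl]
  have hA : (∑ j ∈ Icc 1 k, if ((q ^ b : ℕ) : ℤ) ∣ (j : ℤ) - θ ∧ N ∣ j then (1 : ℤ) else 0) =
      H + if w ≤ r0 then 1 else 0 := by
    rw [← count_res (q ^ b) r0 H w hr0 hw1 hw2, ← Finset.sum_filter, Finset.sum_const,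
      nsmul_eq_mul, mul_one, ← hr]
    have hinj : Function.Injective (fun i : ℕ => N * i) := fun a c h =>
      Nat.eq_of_mul_eq_mul_left hN.pos h
    have himg : (Icc 1 k).filter (fun j : ℕ => ((q ^ b : ℕ) : ℤ) ∣ (j : ℤ) - θ ∧ N ∣ j) =
        ((Icc 1 r).filter (fun i : ℕ => ((q ^ b : ℕ) : ℤ) ∣ (i : ℤ) - w)).image
          (fun i : ℕ => N * i) := by
      ext j
      simp only [mem_filter, mem_Icc, mem_image]
      have hstep : ∀ i : ℕ, (((q ^ b : ℕ) : ℤ) ∣ ((N * i : ℕ) : ℤ) - θ ↔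
          ((q ^ b : ℕ) : ℤ) ∣ (i : ℤ) - w) := by
        intro i
        have h5 : (((N * i : ℕ) : ℤ) - θ) = (N : ℤ) * (i - w) + ((N : ℤ) * w - θ) := by
          push_cast; ring
        rw [h5, dvd_add_left hw3, cop_dvd hcQN']
      constructor
      · rintro ⟨⟨h1, h2⟩, h3, ⟨i, rfl⟩⟩
        refine ⟨i, ⟨⟨?_, ?_⟩, (hstep i).mp h3⟩, rfl⟩
        · rcases Nat.eq_zero_or_pos i with h | h
          · simp [h] at h1
          · exact h
        · by_contra hcon
          have h6 : (r + 1) * N ≤ N * i := by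
            rw [mul_comm N i]; exact Nat.mul_le_mul_right _ (by omega)
          rw [hk'] at h2
          have := hN.two_le
          nlinarith
      · rintro ⟨i, ⟨⟨h1, h2⟩, h3⟩, rfl⟩
        refine ⟨⟨Nat.mul_pos hN.pos (by omega), ?_⟩, (hstep i).mpr h3, Dvd.intro _ rfl⟩
        rw [hk', mul_comm N i]
        exact le_trans (Nat.mul_le_mul_right _ h2) (by omega)
    rw [himg, card_image_of_injective _ hinj]
  have hB : (∑ j ∈ Icc 1 k, if j ≤ r ∧ ((q ^ b : ℕ) : ℤ) ∣ (j : ℤ) - θ then (1 : ℤ) else 0) =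
      H + if θ ≤ r0 then 1 else 0 := by
    rw [← count_res (q ^ b) r0 H θ hr0 hθ1 hθ2, ← Finset.sum_filter, Finset.sum_const,
      nsmul_eq_mul, mul_one, ← hr]
    congr 2
    ext j
    simp only [mem_filter, mem_Icc]
    constructor
    · rintro ⟨⟨h1, h2⟩, h3, h4⟩
      exact ⟨⟨h1, h3⟩, h4⟩
    · rintro ⟨⟨h1, h2⟩, h3⟩
      exact ⟨⟨h1, by omega⟩, h2, h3⟩
  rw [hA, hB]
  ring

set_option maxHeartbeats 4000000 in
theorem cx2 (hcmp : G_CMP) : G_CX2 := by
  classical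
  intro q v N hq hv hN hNq n _ hn hodd k x hk1 hkN hex hqx hNx hdes
  have hs : 0 < q ^ v := pow_pos hq.pos _
  have hqn : q ∣ n := by
    rw [hn]; exact Dvd.dvd.mul_right (dvd_pow_self q (by omega)) _
  have hNn : N ∣ n := by rw [hn]; exact Dvd.intro_left _ rfl
  have hN3 : 3 ≤ N := by
    have h1 : Odd N := Odd.of_dvd_nat hodd hNn
    have h2 := hN.two_le
    rcases h1 with ⟨c, hc⟩
    omega
  have hcqN : Nat.Coprime q N := (Nat.coprime_primes hq hN).mpr (fun h => hNq h.symm)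
  have hcs : Nat.Coprime (q ^ v) N := Nat.Coprime.pow_left _ hcqN
  have hqN : ¬ q ∣ N := (Nat.Prime.coprime_iff_not_dvd hq).mp hcqN
  obtain ⟨N1, rfl⟩ : ∃ N1, N = N1 + 1 := ⟨N - 1, by omega⟩
  obtain ⟨q1, hq1⟩ : ∃ q1, q = q1 + 1 := ⟨q - 1, by have := hq.two_le; omega⟩
  have hn1 : n = k * N1 + 1 := by
    have h1 : 0 < n := Nat.pos_of_ne_zero (NeZero.ne n)
    simp only [Nat.add_sub_cancel] at hkN
    omega
  obtain ⟨h, hh⟩ := hex q hq hqn
  have hh1 : q1 = h * N1 := by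
    rw [← hkN] at hh
    simp only [Nat.add_sub_cancel] at hh
    rw [hq1] at hh
    simp only [Nat.add_sub_cancel] at hh
    have h2 : k * q1 = k * (h * N1) := by rw [hh]; ring
    exact Nat.eq_of_mul_eq_mul_left hk1 h2
  have hh0 : 1 ≤ h := by
    rcases Nat.eq_zero_or_pos h with h0 | h0
    · have := hq.two_le; rw [h0] at hh1; omega
    · exact h0
  have hN1 : 2 ≤ N1 := by omega
  -- repunits
  set R : ℕ → ℕ := fun b => ∑ i ∈ range b, q ^ i * h with hR
  have hR1 : ∀ b, R b * N1 + 1 = q ^ b := by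
    intro b
    induction b with
    | zero => simp [hR]
    | succ b ih =>
      have h1 : R (b + 1) = R b + q ^ b * h := by simp only [hR]; rw [sum_range_succ]
      rw [h1, add_mul, pow_succ]
      calc R b * N1 + q ^ b * h * N1 + 1 = (R b * N1 + 1) + q ^ b * (h * N1) := by ring
        _ = q ^ b + q ^ b * q1 := by rw [ih, hh1]
        _ = q ^ b * (q1 + 1) := by ring
        _ = q ^ b * q := by rw [← hq1]
  have hN1pos : 0 < N1 := by omega
  have hcancel : ∀ a c : ℕ, a * N1 + 1 = c * N1 + 1 → a = c := by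
    intro a c hac
    exact Nat.eq_of_mul_eq_mul_right hN1pos (by omega)
  have hkv : k = q ^ v + R v := by
    apply hcancel
    calc k * N1 + 1 = n := hn1.symm
      _ = q ^ v * N1 + q ^ v := by rw [hn]; ring
      _ = q ^ v * N1 + (R v * N1 + 1) := by rw [hR1]
      _ = (q ^ v + R v) * N1 + 1 := by ring
  have hkv' : k = R v * (N1 + 1) + 1 := by
    apply hcancel
    calc k * N1 + 1 = n := hn1.symm
      _ = (R v * N1 + 1) * (N1 + 1) := by rw [hR1]; exact hn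
      _ = (R v * (N1 + 1) + 1) * N1 + 1 := by ring
  have hRlt : ∀ b, 2 * R b + 1 ≤ q ^ b := by
    intro b
    have := hR1 b
    nlinarith
  -- the valuation of `x`
  set X := x.val with hXdef
  have hX0 : X ≠ 0 := by
    intro h0; exact hqx (h0 ▸ dvd_zero _)
  set a := X.factorization q with ha
  have hfac : ∀ c, q ^ c ∣ X ↔ c ≤ a := fun c => hq.pow_dvd_iff_le_factorization hX0
  have hav : a < v := by
    by_contra hcon
    exact hqx ((hfac v).mpr (not_lt.mp hcon))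
  obtain ⟨b, hb⟩ : ∃ b, b = v - a := ⟨_, rfl⟩
  have hb1 : 1 ≤ b := by omega
  have hbv : b ≤ v := by omega
  have hvb : v - b = a := by omega
  have hQ : 0 < q ^ b := pow_pos hq.pos _
  have hRv : R v = R b + q ^ b * R (v - b) := by
    apply hcancel
    calc R v * N1 + 1 = q ^ v := hR1 v
      _ = q ^ b * q ^ (v - b) := by rw [← pow_add, Nat.add_sub_cancel' hbv]
      _ = q ^ b * (R (v - b) * N1 + 1) := by rw [hR1]
      _ = q ^ b * (R (v - b) * N1) + q ^ b := by ring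
      _ = q ^ b * (R (v - b) * N1) + (R b * N1 + 1) := by rw [hR1]
      _ = (R b + q ^ b * R (v - b)) * N1 + 1 := by ring
  have hvbb : v - 1 = v - b + (b - 1) := by omega
  have hbv1 : b - 1 ≤ v := by omega
  -- the idempotent
  obtain ⟨e, he1, heN⟩ : ∃ e : ℤ, ((q ^ v : ℕ) : ℤ) ∣ e - 1 ∧ ((N1 + 1 : ℕ) : ℤ) ∣ e := by
    obtain ⟨c, d, hcd⟩ := (Nat.isCoprime_iff_coprime.mpr hcs)
    refine ⟨d * ((N1 + 1 : ℕ) : ℤ), ⟨-c, ?_⟩, Dvd.intro_left _ rfl⟩
    linarith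
  -- the main consequence of `Des`
  have hS : ∀ θ θ' : ℕ, 1 ≤ θ → θ ≤ q ^ b → θ.Coprime q → 1 ≤ θ' → θ' ≤ q ^ b → θ'.Coprime q →
      ((q ^ (b - 1) : ℕ) : ℤ) ∣ (θ : ℤ) - θ' →
      ((if ∃ w : ℕ, 1 ≤ w ∧ w ≤ R b ∧ ((q ^ b : ℕ) : ℤ) ∣ ((N1 + 1 : ℕ) : ℤ) * w - θ
          then (1 : ℤ) else 0) - (if θ ≤ R b then 1 else 0)) =
      ((if ∃ w : ℕ, 1 ≤ w ∧ w ≤ R b ∧ ((q ^ b : ℕ) : ℤ) ∣ ((N1 + 1 : ℕ) : ℤ) * w - θ'
          then (1 : ℤ) else 0) - (if θ' ≤ R b then 1 else 0)) := by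
    intro θ θ' h1 h2 h3 h1' h2' h3' hθθ
    have hcop : ∀ θ : ℕ, θ.Coprime q → ∃ t : ℤ, ((q ^ v : ℕ) : ℤ) ∣ θ * t - 1 := by
      intro θ hθ
      have : IsCoprime (θ : ℤ) ((q ^ v : ℕ) : ℤ) :=
        Nat.isCoprime_iff_coprime.mpr (Nat.Coprime.pow_right _ hθ)
      obtain ⟨c, d, hcd⟩ := this
      exact ⟨c, ⟨-d, by linarith⟩⟩
    obtain ⟨t, ht⟩ := hcop θ h3
    obtain ⟨t', ht'⟩ := hcop θ' h3'
    have hX1 : q ^ (v - b) ∣ X := (hfac _).mpr (by omega)
    have hX2 : ¬ q ^ (v - b + 1) ∣ X := by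
      intro hcon; have := (hfac _).mp hcon; omega
    have S1 := S_val q v b (N1 + 1) hq hbv hN hNq n hn k (R v) (R b) (R (v - b)) X
      (by have := hRlt b; omega) hRv hkv hkv' (by have := hRlt v; omega) hX1 hX2 hNx e he1 heN
      θ h1 h2 h3 t ht
    have S2 := S_val q v b (N1 + 1) hq hbv hN hNq n hn k (R v) (R b) (R (v - b)) X
      (by have := hRlt b; omega) hRv hkv hkv' (by have := hRlt v; omega) hX1 hX2 hNx e he1 heN
      θ' h1' h2' h3' t' ht'
    rw [← S1, ← S2]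
    have hYne : ∀ t : ℤ, ((e * X * t + (1 - e) : ℤ) : ZMod n) ≠ 0 := by
      intro t h0
      rw [ZMod.intCast_zmod_eq_zero_iff_dvd] at h0
      have h4 : ((N1 + 1 : ℕ) : ℤ) ∣ e * X * t + (1 - e) :=
        (Int.natCast_dvd_natCast.mpr hNn).trans h0
      have h5 : ((N1 + 1 : ℕ) : ℤ) ∣ e * (X * t - 1) := Dvd.dvd.mul_right heN _
      have h6 := dvd_sub h4 h5
      have h7 : e * X * t + (1 - e) - e * (X * t - 1) = 1 := by ring
      rw [h7] at h6
      have := Int.le_of_dvd one_pos h6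
      omega
    have hi : ∃ i : ZMod n, ((e * X * t' + (1 - e) : ℤ) : ZMod n) =
        ((e * X * t + (1 - e) : ℤ) : ZMod n) + i * ((q ^ (v - 1) * (N1 + 1) : ℕ) : ZMod n) := by
      -- q^(b-1) divides t' - t
      have h4 : ((q ^ (b - 1) : ℕ) : ℤ) ∣ t' - t := by
        have hbs : ((q ^ (b - 1) : ℕ) : ℤ) ∣ ((q ^ v : ℕ) : ℤ) := by
          exact_mod_cast pow_dvd_pow q hbv1
        have h5 : IsCoprime ((q ^ (b - 1) : ℕ) : ℤ) ((θ : ℤ) * θ') := by
          apply IsCoprime.mul_right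
          · exact Nat.isCoprime_iff_coprime.mpr (Nat.Coprime.pow_left _ h3.symm)
          · exact Nat.isCoprime_iff_coprime.mpr (Nat.Coprime.pow_left _ h3'.symm)
        rw [← cop_dvd h5]
        have h6 : (θ : ℤ) * θ' * (t' - t) = θ * (θ' * t' - 1) - θ' * (θ * t - 1) + (θ - θ') := by
          ring
        rw [h6]
        exact dvd_add (dvd_sub (Dvd.dvd.mul_left (hbs.trans ht') _)
          (Dvd.dvd.mul_left (hbs.trans ht) _)) hθθ
      obtain ⟨c, hc⟩ := h4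
      obtain ⟨d, hd⟩ := hX1
      obtain ⟨f, hf⟩ := heN
      refine ⟨((f * d * c : ℤ) : ZMod n), ?_⟩
      have h7 : q ^ (v - 1) = q ^ (v - b) * q ^ (b - 1) := by
        rw [← pow_add, ← hvbb]
      have h8 : e * X * t' + (1 - e) = e * X * t + (1 - e) +
          (f * d * c) * ((q ^ (v - 1) * (N1 + 1) : ℕ) : ℤ) := by
        have h9 : t' = t + ((q ^ (b - 1) : ℕ) : ℤ) * c := by linarith
        have h10 : e * (X : ℤ) * (((q ^ (b - 1) : ℕ) : ℤ) * c) =
            (f * d * c) * ((q ^ (v - 1) * (N1 + 1) : ℕ) : ℤ) := by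
          rw [h7, hf, hd]; push_cast; ring
        rw [h9, ← h10]
        ring
      rw [h8]
      push_cast
      ring
    have hC := hcmp q v (N1 + 1) hq hv hqN hN.pos n hn k x _ _ (hYne t) (hYne t') hi
    obtain ⟨ρ, hρ⟩ := hdes
    rw [hρ _ (hYne t), hρ _ (hYne t'), sub_self] at hC
    have hne : ((-1 : ℤ) ^ (k - 1)) ≠ 0 := pow_ne_zero _ (by norm_num)
    have hC2 := (mul_eq_zero.mp hC.symm).resolve_left hne
    have hxX : x = ((X : ℕ) : ZMod n) := (ZMod.natCast_zmod_val x).symm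
    have hform : ∀ (t : ℤ) (j : ℕ), x - (j : ZMod n) * ((e * X * t + (1 - e) : ℤ) : ZMod n) =
        ((X - j * (e * X * t + (1 - e)) : ℤ) : ZMod n) := by
      intro t j
      rw [hxX]
      push_cast
      ring
    rw [← sub_eq_zero, ← hC2, ← sum_sub_distrib]
    refine sum_congr rfl (fun j _ => ?_)
    rw [hform, hform, mul_sub]
  -- coprimality facts
  have hRb_cop : (R b).Coprime q := by
    have h1 := hR1 b
    rw [Nat.coprime_comm, Nat.Prime.coprime_iff_not_dvd hq]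
    intro h2
    have h3 : q ∣ q ^ b := dvd_pow_self q (by omega)
    rw [← h1] at h3
    have h4 : q ∣ 1 := (Nat.dvd_add_right (Dvd.dvd.mul_right h2 _)).mp h3
    exact hq.one_lt.ne' (Nat.dvd_one.mp h4)
  have hq2 : 2 * h + 1 ≤ q := by rw [hq1, hh1]; nlinarith
  have hq5 : 5 ≤ q := by
    rcases Nat.lt_or_ge 1 h with h1 | h1
    · omega
    · have : h = 1 := by omega
      exfalso
      apply hNq
      rw [hq1, hh1, this, one_mul]
  have hqb : q ^ b = q ^ (b - 1) * q := by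
    rw [← pow_succ]; congr 1; omega
  have hqb1 : 0 < q ^ (b - 1) := pow_pos hq.pos _
  have hRb_le := hRlt b
  have hRb_pos : 1 ≤ R b := by
    rcases Nat.eq_zero_or_pos (R b) with h0 | h0
    · have h1 := hR1 b
      rw [h0, zero_mul, zero_add] at h1
      have h2 : q ∣ 1 := h1 ▸ dvd_pow_self q (by omega)
      exact absurd (Nat.dvd_one.mp h2) hq.one_lt.ne'
    · exact h0
  -- adding a multiple of q^(b-1)
  have hadd_cop : ∀ θ c : ℕ, θ.Coprime q → (b = 1 → 1 ≤ θ + c ∧ θ + c < q) →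
      (θ + c * q ^ (b - 1)).Coprime q := by
    intro θ c hθ hbc
    rcases Nat.lt_or_ge 1 b with h1 | h1
    · have h2 : q ∣ c * q ^ (b - 1) := Dvd.dvd.mul_left (dvd_pow_self q (by omega)) _
      obtain ⟨d, hd⟩ := h2
      rw [hd]
      simpa using hθ
    · have h2 : b = 1 := by omega
      have h3 := hbc h2
      rw [h2]
      simp only [Nat.sub_self, pow_zero, mul_one]
      exact (Nat.coprime_of_lt_prime (by omega) h3.2 hq).symm
  have hR_1 : b = 1 → R b = h := by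
    intro hb'
    rw [hb']; simp [hR]
  -- first comparison
  have hW1 : ∃ w : ℕ, 1 ≤ w ∧ w ≤ R b ∧ ((q ^ b : ℕ) : ℤ) ∣ ((N1 + 1 : ℕ) : ℤ) * w - (R b : ℕ) := by
    have h1 := hS (R b) (R b + 1 * q ^ (b - 1)) hRb_pos (by omega) hRb_cop (by omega)
      (by rw [hqb]; rw [hqb] at hRb_le; nlinarith)
      (hadd_cop _ _ hRb_cop (fun hb' => by rw [hR_1 hb']; omega))
      ⟨-1, by push_cast; ring⟩
    rw [if_pos (le_refl _), if_neg (show ¬ (R b + 1 * q ^ (b - 1) ≤ R b) by omega)] at h1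
    by_contra hcon
    rw [if_neg hcon] at h1
    split_ifs at h1 <;> omega
  have hW2 : ∃ w : ℕ, 1 ≤ w ∧ w ≤ R b ∧ ((q ^ b : ℕ) : ℤ) ∣ ((N1 + 1 : ℕ) : ℤ) * w - (1 : ℕ) := by
    have hbig : R b < 1 + (h + 1) * q ^ (b - 1) := by
      have h1 := hR1 b
      -- (q-1) R b = h (q^b - 1)
      have h2 : q1 * R b + h = h * q ^ b := by
        rw [← h1, hh1]; ring
      by_contra hcon
      have h3 : 1 + (h + 1) * q ^ (b - 1) ≤ R b := by omega
      have h4 : q1 * (1 + (h + 1) * q ^ (b - 1)) ≤ q1 * R b := Nat.mul_le_mul_left _ h3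
      rw [hqb] at h2
      have h5 : q1 + q1 * (h + 1) * q ^ (b - 1) + h ≤ h * (q ^ (b - 1) * q) := by nlinarith
      have h6 : h * (q ^ (b - 1) * q) = h * q1 * q ^ (b - 1) + h * q ^ (b - 1) := by
        rw [show q ^ (b - 1) * q = q ^ (b - 1) * (q1 + 1) by rw [← hq1]]; ring
      have h7 : q1 * (h + 1) * q ^ (b - 1) = h * q1 * q ^ (b - 1) + q1 * q ^ (b - 1) := by ring
      have h8 : h * q ^ (b - 1) ≤ q1 * q ^ (b - 1) := Nat.mul_le_mul_right _ (by omega)
      omega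
    have hle : 1 + (h + 1) * q ^ (b - 1) ≤ q ^ b := by
      rw [hqb, mul_comm _ q]
      have h1 : (h + 1) * q ^ (b - 1) + q ^ (b - 1) ≤ q * q ^ (b - 1) := by
        have : (h + 2) * q ^ (b - 1) ≤ q * q ^ (b - 1) := Nat.mul_le_mul_right _ (by omega)
        nlinarith
      omega
    have h1 := hS 1 (1 + (h + 1) * q ^ (b - 1)) le_rfl (by omega) (Nat.coprime_one_left q) (by omega)
      hle (hadd_cop _ _ (Nat.coprime_one_left q) (fun _ => by omega))
      ⟨-(h + 1), by push_cast; ring⟩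
    rw [if_pos hRb_pos, if_neg (show ¬ (1 + (h + 1) * q ^ (b - 1) ≤ R b) by omega)] at h1
    by_contra hcon
    rw [if_neg hcon] at h1
    split_ifs at h1 <;> omega
  obtain ⟨w, hw1, hw2, hw3⟩ := hW1
  obtain ⟨w', hw1', hw2', hw3'⟩ := hW2
  have h1 := hR1 b
  have h2 : ((q ^ b : ℕ) : ℤ) ∣ ((N1 + 1 : ℕ) : ℤ) * ((R b : ℤ) + w' - w) := by
    have h3 : ((N1 + 1 : ℕ) : ℤ) * ((R b : ℤ) + w' - w) =
        (((N1 + 1 : ℕ) : ℤ) * w' - (1 : ℕ)) - (((N1 + 1 : ℕ) : ℤ) * w - (R b : ℕ)) +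
        ((R b * N1 + 1 : ℕ) : ℤ) := by
      push_cast; ring
    rw [h3]
    refine dvd_add (dvd_sub hw3' hw3) ?_
    rw [h1]
  have hcQN : IsCoprime ((q ^ b : ℕ) : ℤ) ((N1 + 1 : ℕ) : ℤ) :=
    Nat.isCoprime_iff_coprime.mpr (Nat.Coprime.pow_left _ hcqN)
  rw [cop_dvd hcQN] at h2
  have h3 := Int.eq_zero_of_abs_lt_dvd h2 (by rw [abs_lt]; constructor <;> omega)
  omega

end Pool.Agent.Helper50.SD
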